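import Pool.Agent.Helper70.BN.St1

/-!
# Project BN (MP_a2f62e_al), module RINV: inversions of reduced words
-/

set_option autoImplicit false

namespace Pool.Agent.Helper32.BN

open Pool.Agent.Helper70.BN

variable {l : ℕ} {A : Fin l → Fin l → ℤ} {d : Fin l → ℤ} {Φ : Finset (Fin l → ℤ)}

theorem sr_ne (i k : Fin l) (h : k ≠ i) (v : Fin l → ℤ) : sr A i v k = v k := by
  simp [sr, h]

theorem eq_smul_al (i : Fin l) (v : Fin l → ℤ) (h : ∀ k, k ≠ i → v k = 0) :
    v = v i • (al i : Fin l → ℤ) := by
  funext k
  by_cases hk : k = i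
  · subst hk
    simp [al]
  · simp [al, hk, h k hk]

theorem inv_pos (h : RS A d Φ) (i : Fin l) (v : Fin l → ℤ) (hv : v ∈ Φ) (h0 : 0 ≤ v) (hne : v ≠ al i) :
    0 ≤ sr A i v := by
  rcases h.sign _ (h.stable v hv i) with h1 | h1
  · exact h1
  · exfalso
    have h4 : v = v i • (al i : Fin l → ℤ) := by
      apply eq_smul_al
      intro k hk
      have h3 := h1 k
      rw [sr_ne i k hk] at h3
      exact le_antisymm h3 (h0 k)
    have h6 : v i • (al i : Fin l → ℤ) ∈ Φ := by
      rw [← h4]
      exact hv
    rcases h.reduced i (v i) h6 with h5 | h5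
    · apply hne
      rw [h4, h5, one_smul]
    · have h7 := h0 i
      rw [h5] at h7
      simp at h7

theorem inv_neg (h : RS A d Φ) (i : Fin l) (v : Fin l → ℤ) (hv : v ∈ Φ) (h0 : v ≤ 0) (hne : v ≠ -al i) :
    sr A i v ≤ 0 := by
  rcases h.sign _ (h.stable v hv i) with h1 | h1
  · exfalso
    have h4 : v = v i • (al i : Fin l → ℤ) := by
      apply eq_smul_al
      intro k hk
      have h3 := h1 k
      rw [sr_ne i k hk] at h3
      exact le_antisymm (h0 k) h3
    have h6 : v i • (al i : Fin l → ℤ) ∈ Φ := by
      rw [← h4]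
      exact hv
    rcases h.reduced i (v i) h6 with h5 | h5
    · have h7 := h0 i
      rw [h5] at h7
      simp at h7
    · apply hne
      rw [h4, h5, neg_smul, one_smul]
  · exact h1

theorem rts_snoc (a : List (Fin l)) (i : Fin l) : rts A (a ++ [i]) = rts A a ++ [wa A a (al i)] := by
  rw [rts_append]
  rfl

theorem red_snoc (a : List (Fin l)) (i : Fin l) (h : Red A (a ++ [i])) :
    Red A a ∧ 0 ≤ wa A a (al i) := by
  unfold Red at h
  rw [rts_snoc] at h
  exact ⟨fun β hβ => h β (List.mem_append_left _ hβ), h _ (List.mem_append_right _ (by simp))⟩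

theorem inv_iff (h : RS A d Φ) (w : List (Fin l)) :
    Red A w → ∀ γ ∈ Φ, 0 ≤ γ → (wa A w.reverse γ ≤ 0 ↔ γ ∈ rts A w) := by
  induction w using List.reverseRecOn with
  | nil =>
    intro _ γ hγ h0
    constructor
    · intro h1
      exact absurd h1 (not_nonpos_of_nonneg h hγ h0)
    · intro h1
      simp [rts] at h1
  | append_singleton a i ih =>
    intro hr γ hγ h0
    obtain ⟨hra, hai⟩ := red_snoc a i hr
    have ih' := ih hra γ hγ h0
    have hδ : wa A a.reverse γ ∈ Φ := wa_mem h _ hγ
    have hγδ : wa A a (wa A a.reverse γ) = γ := wa_reverse h.diag a γ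
    have hrev : (a ++ [i]).reverse = i :: a.reverse := by simp
    rw [hrev, wa_cons, rts_snoc, List.mem_append, List.mem_singleton]
    constructor
    · intro h1
      rcases h.sign _ hδ with h2 | h2
      · right
        by_contra h3
        have h4 : wa A a.reverse γ ≠ al i := by
          intro h5
          apply h3
          rw [← hγδ, h5]
        have h5 := inv_pos h i _ hδ h2 h4
        exact not_nonpos_of_nonneg h (h.stable _ hδ i) h5 h1
      · left
        exact ih'.1 h2
    · rintro (h1 | h1)
      · have h2 := ih'.2 h1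
        apply inv_neg h i _ hδ h2
        intro h3
        rw [h3, wa_neg] at hγδ
        have h4 : γ ≤ 0 := by
          rw [← hγδ]
          intro k
          have := hai k
          simp only [Pi.neg_apply, Pi.zero_apply] at this ⊢
          omega
        exact not_nonpos_of_nonneg h hγ h0 h4
      · have h2 : wa A a.reverse γ = al i := by
          rw [h1, reverse_wa h.diag]
        rw [h2, sr_al_self h.diag]
        intro k
        have := (al_nonneg i : (0 : Fin l → ℤ) ≤ al i) k
        simp only [Pi.neg_apply, Pi.zero_apply] at this ⊢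
        omega

theorem inv_nodup (h : RS A d Φ) (w : List (Fin l)) : Red A w → (rts A w).Nodup := by
  induction w using List.reverseRecOn with
  | nil =>
    intro _
    simp [rts]
  | append_singleton a i ih =>
    intro hr
    obtain ⟨hra, hai⟩ := red_snoc a i hr
    rw [rts_snoc]
    have hx : wa A a (al i) ∈ Φ := wa_mem h _ (h.simple i)
    have h1 : wa A a (al i) ∉ rts A a := by
      intro h2
      have h3 := (inv_iff h a hra _ hx hai).2 h2
      rw [reverse_wa h.diag] at h3
      exact not_nonpos_of_nonneg h (h.simple i) (al_nonneg i) h3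
    rw [List.nodup_append]
    refine ⟨ih hra, by simp, ?_⟩
    intro x hx1 y hy1 hxy
    rw [List.mem_singleton] at hy1
    apply h1
    rw [← hy1, ← hxy]
    exact hx1

theorem hRINV : StRINV := by
  intro l A d Φ h
  exact ⟨fun i v hv h0 hne => inv_pos h i v hv h0 hne, fun w hw => inv_iff h w hw,
    fun w hw => inv_nodup h w hw⟩

end Pool.Agent.Helper32.BN
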